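import Pool.Agent.Helper28_MWZ.Sys
import Pool.Agent.Helper90_MWK.Main
import Pool.Agent.Helper90_MWK.MainN
import Pool.Agent.Helper5_MWGP.GAP

/-!
# Bridge: the gamma world `xyx ≈ xyx^2` for period one

MP_23468a_al.  The forms of MWU and of `Helper28_MWZ/Sys.lean` (`SGam`).  Necessity (outside of the
beta world) from `gam_nec` and the hypothesis `NecM` (the G3 world), sufficiency from `k_mod` and
the row SGM of MWGP.
-/

set_option autoImplicit false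

namespace Pool.Agent.MWG.H90

open Pool.Agent.Helper14_MV Pool.Agent.Helper2_MV Pool.Agent.MVO Pool.Agent.MWZ

/-- necessity in the G3 world -/
def NecM : Prop := ∀ β : FIC, ModF β → MWK.Gw β → RR β [0, 0, 1, 1] [1, 1, 0, 0] →
  ¬ RR β [0, 0, 1] [0, 0, 1, 0] → RR β [0, 1, 2, 0, 1] [1, 0, 2, 0, 1] →
    MWZ.F (RR β) ∧ MWZ.I1 1 (RR β) ∧ MWZ.I2 (RR β)

theorem ap_of {β : FIC} (hp : Per 1 (RR β)) (hcr : MWU.NCR β) : MWF.Ap β := by
  refine ⟨hp, fun h => ?_⟩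
  apply hcr 1 le_rfl
  have h1 : β.r (FreeMonoid.ofList [0]) (FreeMonoid.ofList [0, 0]) := h
  exact β.symm h1

/-- adjacent non-first occurrences commute -/
theorem f'_of {β : FIC} (hga : MWU.Gam 1 (RR β)) (h0 : R0 (RR β)) : MWZ.F' (RR β) := by
  intro p q c r x y _
  have h := (MWGP.H5.gap 1 β hga h0 (p ++ x :: (c ++ y :: q)) r x y (by simp)).2 (by simp)
  have e : ∀ s : List ℕ, (p ++ x :: (c ++ y :: q)) ++ s = p ++ x :: (c ++ y :: (q ++ s)) := by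
    intro s
    simp
  rwa [e, e] at h

theorem gN (h : NecM) :
    MWU.Nec (fun n => n = 1) (fun n β => MWU.Gam n (RR β) ∧ ¬ MWU.Bet n (RR β)) SGam := by
  rintro n β - rfl hp hcr - hm ⟨hga, hbe⟩
  left
  have hap := ap_of hp hcr
  have hgm : RR β [0, 1, 0] [0, 1, 0, 0] := hga
  have hnb : ¬ RR β [0, 1, 0] [0, 0, 1, 0, 0] := hbe
  obtain ⟨h1, h2⟩ := MWK.H90.gam_nec β hm hap hgm hnb
  refine ⟨hga, h1, ?_⟩
  by_cases hk : RR β [0, 0, 1] [0, 0, 1, 0]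
  · exact Or.inl hk
  · have h3 := h2.resolve_left hk
    obtain ⟨hF, hI1, hI2⟩ := h β hm ⟨hap, hgm, hnb⟩ h1 hk h3
    exact Or.inr ⟨hF, f'_of hga h1, hI1, hI2⟩

theorem gS (h : MWGP.SgmStmt) : MWU.Suf (fun n => n = 1) SGam := by
  rintro n β - rfl hp ⟨hga, h0, hk | ⟨hf, -, h1, h2⟩⟩
  · exact MWK.H90.k_mod β ⟨hga, hk, h0⟩
  · exact (h 1 β ⟨le_rfl, hp, hga, h0, hf, h1, h2⟩).2

end Pool.Agent.MWG.H90
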